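import Pool.Agent.Lib.MP_e5885b_co.Sphere

set_option autoImplicit false

namespace Pool.Agent.Results.MP_e5885b_co.BoundedComplexity

variable {V : Type} [NormedAddCommGroup V] [InnerProductSpace ℝ V]

/-- closed, pairwise congruent tiles of diameter < ε with disjoint interiors covering the sphere -/
def IsTiling (ε : ℝ) {N : ℕ} (T : Fin N → Set (Metric.sphere (0 : V) 1)) : Prop :=
  (⋃ i, T i) = Set.univ ∧ (∀ i, IsClosed (T i)) ∧ (∀ i, Metric.diam (T i) < ε) ∧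
    (∀ i j, ∃ g : V ≃ₗᵢ[ℝ] V, g '' (Subtype.val '' T i) = Subtype.val '' T j) ∧
    Pairwise fun i j => Disjoint (interior (T i)) (interior (T j))

/-- spherically convex -/
def SConvex (K : Set (Metric.sphere (0 : V) 1)) : Prop :=
  ∀ x ∈ K, ∀ y ∈ K, ∀ (z : Metric.sphere (0 : V) 1) (a b : ℝ), 0 ≤ a → 0 ≤ b →
    z.val = a • x.val + b • y.val → z ∈ K

/-- a union of k convex pieces with pairwise disjoint interiors -/
def ConvexPieces (k : ℕ) (T : Set (Metric.sphere (0 : V) 1)) : Prop :=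
  ∃ K : Fin k → Set (Metric.sphere (0 : V) 1), (∀ c, SConvex (K c)) ∧
    (Pairwise fun c c' => Disjoint (interior (K c)) (interior (K c'))) ∧ T = ⋃ c, K c

/-- the boundary lies in a union of k great circles -/
def BoundaryInCircles (k : ℕ) (T : Set (Metric.sphere (0 : V) 1)) : Prop :=
  ∃ u : Fin k → V, (∀ t, u t ≠ 0) ∧ frontier T ⊆ {x | ∃ t, inner ℝ (u t) x.val = 0}

theorem result (k : ℕ) : ∃ ε : ℝ, 0 < ε ∧
    ∀ (N : ℕ) (T : Fin N → Set (Metric.sphere (0 : EuclideanSpace ℝ (Fin 3)) 1)),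
      IsTiling ε T → ∀ i, ¬ConvexPieces k (T i) ∧ ¬BoundaryInCircles k (T i) := by
  obtain ⟨ε, h0, h⟩ := Pool.Agent.Lib.MP_e5885b_co.main k
  exact ⟨ε, h0, fun N T hT i => h N T hT.1 hT.2.1 hT.2.2.1 hT.2.2.2.1 hT.2.2.2.2 i⟩

end Pool.Agent.Results.MP_e5885b_co.BoundedComplexity
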