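import Pool.Agent.Lib.MP_e5885b_co.LT5

set_option autoImplicit false

namespace Pool.Agent.Results.MP_e5885b_co.NearTypes

variable {V : Type} [NormedAddCommGroup V] [InnerProductSpace ℝ V]

/-- the copy g(P) of the prototile P -/
def tile (g : V ≃ₗᵢ[ℝ] V) (P : Set (Metric.sphere (0 : V) 1)) : Set (Metric.sphere (0 : V) 1) :=
  {x | ∃ p ∈ P, g p.val = x.val}

/-- the relative motions (g i)⁻¹ ∘ g j of the pairs of copies outside B at distance at most ρ -/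
def motions {N : ℕ} (g : Fin N → V ≃ₗᵢ[ℝ] V) (P : Set (Metric.sphere (0 : V) 1))
    (B : Finset (Fin N)) (ρ : ℝ) : Set (V ≃ₗᵢ[ℝ] V) :=
  {γ | ∃ i ∉ B, ∃ j ∉ B, (∃ x ∈ tile (g i) P, ∃ y ∈ tile (g j) P, dist x y ≤ ρ) ∧
    γ = (g j).trans (g i).symm}

theorem result : ∃ C : ℝ, 1 ≤ C ∧
    ∀ (K N : ℕ) (g : Fin N → EuclideanSpace ℝ (Fin 3) ≃ₗᵢ[ℝ] EuclideanSpace ℝ (Fin 3))
      (P : Set (Metric.sphere (0 : EuclideanSpace ℝ (Fin 3)) 1)) (B : Finset (Fin N)) (ε ρ δ : ℝ)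
      (F : Finset (EuclideanSpace ℝ (Fin 3) ≃ₗᵢ[ℝ] EuclideanSpace ℝ (Fin 3))),
      IsClosed P → Metric.diam P ≤ ε → (⋃ i, tile (g i) P) = Set.univ →
        0 < ε → 0 ≤ δ → C ^ (K + 1) * (ε ^ 2 + δ) < 1 → 0 ≤ ρ → ρ ≤ ε → F.card ≤ K →
          (∀ γ ∈ motions g P B ρ, ∃ f ∈ F, ∀ v, ‖γ v - f v‖ ≤ δ * ‖v‖) →
            B.Nonempty ∧ ρ ^ 2 ≤ C ^ (K + 1) * (ε ^ 2 + δ) * B.card * ε ^ 2 := by
  obtain ⟨C, c1, h⟩ := Pool.Agent.Lib.MP_e5885b_co.nearTypes2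
  refine ⟨C, c1, fun K N g P B ε ρ δ F h1 h2 h3 h4 h0 h5 h6 h7 h8 h9 => ?_⟩
  refine h K N (Subtype.val '' P) g B ε ρ δ (h1.isCompact.image continuous_subtype_val) ?_ ?_ ?_ h4
    h0 h5 h6 h7 F h8 ?_
  · rintro _ ⟨p, -, rfl⟩
    exact norm_eq_of_mem_sphere p
  · intro x hx
    obtain ⟨i, p, a, b⟩ := Set.mem_iUnion.1
      (h3.symm ▸ Set.mem_univ (⟨x, mem_sphere_zero_iff_norm.2 hx⟩ : Metric.sphere _ 1))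
    exact ⟨i, p, ⟨p, a, rfl⟩, b⟩
  · rintro _ ⟨p, hp, rfl⟩ _ ⟨q, hq, rfl⟩
    rw [← dist_eq_norm]
    exact (Metric.dist_le_diam_of_mem h1.isCompact.isBounded hp hq).trans h2
  · rintro i hi j hj _ ⟨_, ⟨p, hp, rfl⟩, rfl⟩ _ ⟨_, ⟨q, hq, rfl⟩, rfl⟩ k
    refine h9 _ ⟨i, hi, j, hj, ⟨⟨g i p, by simp⟩, ⟨p, hp, rfl⟩, ⟨g j q, by simp⟩,
      ⟨q, hq, rfl⟩, ?_⟩, rfl⟩
    rwa [Subtype.dist_eq, dist_eq_norm]

end Pool.Agent.Results.MP_e5885b_co.NearTypes
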