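import Pool.Agent.Lib.MP_e5885b_co.Gen2

set_option autoImplicit false

namespace Pool.Agent.Results.MP_e5885b_co.PolygonDefects

variable {V : Type} [NormedAddCommGroup V] [InnerProductSpace ℝ V]

/-- closed, pairwise congruent tiles of diameter < ε with disjoint interiors covering the sphere -/
def IsTiling (ε : ℝ) {N : ℕ} (T : Fin N → Set (Metric.sphere (0 : V) 1)) : Prop :=
  (⋃ i, T i) = Set.univ ∧ (∀ i, IsClosed (T i)) ∧ (∀ i, Metric.diam (T i) < ε) ∧
    (∀ i j, ∃ g : V ≃ₗᵢ[ℝ] V, g '' (Subtype.val '' T i) = Subtype.val '' T j) ∧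
    Pairwise fun i j => Disjoint (interior (T i)) (interior (T j))

/-- the minor great circle arc from x to y -/
def Arc (x y : Metric.sphere (0 : V) 1) : Set (Metric.sphere (0 : V) 1) :=
  {z | ∃ a b : ℝ, 0 ≤ a ∧ 0 ≤ b ∧ z.val = a • x.val + b • y.val}

/-- a region bounded by closed polygonal chains (side j runs from v j to v (s j)) with any number
of sides; the set A of at most k marked corners meets every chain and holds all pinch points -/
def Polygon (k : ℕ) (T : Set (Metric.sphere (0 : V) 1)) : Prop :=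
  T ⊆ closure (interior T) ∧
    ∃ (n : ℕ) (v : Fin n → Metric.sphere (0 : V) 1) (s : Equiv.Perm (Fin n)) (A : Finset (Fin n)),
      A.card ≤ k ∧ (∀ j, ∃ a ∈ A, s.SameCycle a j) ∧
      (∀ j, LinearIndependent ℝ ![(v j).val, (v (s j)).val]) ∧
      (∀ j ∉ A, (∀ l, v l = v j → l = j) ∧
        LinearIndependent ℝ ![(v (s.symm j)).val, (v j).val, (v (s j)).val]) ∧
      (∀ j l, j ≠ l → Arc (v j) (v (s j)) ∩ Arc (v l) (v (s l)) ⊆ {v j, v (s j)}) ∧
      frontier T = ⋃ j, Arc (v j) (v (s j))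

/-- the number of tiles containing x -/
noncomputable def deg {N : ℕ} (T : Fin N → Set (Metric.sphere (0 : V) 1))
    (x : Metric.sphere (0 : V) 1) : ℕ := {l | x ∈ T l}.ncard

/-- the number of vertices of the tiling (points in at least three tiles) on tile j -/
noncomputable def val {N : ℕ} (T : Fin N → Set (Metric.sphere (0 : V) 1)) (j : Fin N) : ℕ :=
  {x ∈ T j | 3 ≤ deg T x}.ncard

theorem result (K k : ℕ) : ∃ M : ℕ,
    ∀ (N : ℕ) (T : Fin N → Set (Metric.sphere (0 : EuclideanSpace ℝ (Fin 3)) 1)),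
      IsTiling 1 T → (∃ i, Polygon k (T i)) → ∀ B : Finset (Fin N),
        (∀ j ∉ B, val T j ≤ K ∧ ∀ x ∈ T j, deg T x ≤ K) →
          N ≤ M * (1 + ∑ j ∈ B, (val T j + 1)) := by
  obtain ⟨M, h⟩ := Pool.Agent.Lib.MP_e5885b_co.general K k
  refine ⟨M, fun N T hT ⟨i, h1, n, v, s, A, h2, h3, h4, h5, h6, h7⟩ B hK => ?_⟩
  refine h N T hT.1 hT.2.1 hT.2.2.1 hT.2.2.2.1 hT.2.2.2.2 i h1 (Fin n) v s A h2 (fun j => ?_) h4 h5
    (fun j k e x a b => h6 j k e ⟨a, b⟩) (fun x => by rw [h7, Set.mem_iUnion]; rfl) B hK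
  obtain ⟨a, p, q⟩ := h3 j
  obtain ⟨m, -, e⟩ := q.exists_pow_eq'
  exact ⟨a, p, m, by rw [← e, Equiv.Perm.iterate_eq_pow]⟩

end Pool.Agent.Results.MP_e5885b_co.PolygonDefects
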