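import Pool.Agent.Lib.MP_e5885b_co.Thin

set_option autoImplicit false

namespace Pool.Agent.Results.MP_e5885b_co.ThinAngle

variable {V : Type} [NormedAddCommGroup V] [InnerProductSpace ℝ V]

/-- closed, pairwise congruent tiles of diameter < ε with disjoint interiors covering the sphere -/
def IsTiling (ε : ℝ) {N : ℕ} (T : Fin N → Set (Metric.sphere (0 : V) 1)) : Prop :=
  (⋃ i, T i) = Set.univ ∧ (∀ i, IsClosed (T i)) ∧ (∀ i, Metric.diam (T i) < ε) ∧
    (∀ i j, ∃ g : V ≃ₗᵢ[ℝ] V, g '' (Subtype.val '' T i) = Subtype.val '' T j) ∧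
    Pairwise fun i j => Disjoint (interior (T i)) (interior (T j))

/-- the boundary lies in a finite union of great circles -/
def Polygonal (T : Set (Metric.sphere (0 : V) 1)) : Prop :=
  ∃ (n : ℕ) (u : Fin n → V), (∀ t, u t ≠ 0) ∧ frontier T ⊆ {x | ∃ t, inner ℝ (u t) x.val = 0}

/-- the interior has at most k connected components -/
def FewParts (k : ℕ) (T : Set (Metric.sphere (0 : V) 1)) : Prop :=
  ∃ U : Fin k → Set (Metric.sphere (0 : V) 1), (∀ j, IsPreconnected (U j)) ∧ interior T = ⋃ j, U j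

/-- the spherical triangle with vertices x, y, z -/
def Triangle (x y z : Metric.sphere (0 : V) 1) : Set (Metric.sphere (0 : V) 1) :=
  {w | ∃ a b c : ℝ, 0 ≤ a ∧ 0 ≤ b ∧ 0 ≤ c ∧ w.val = a • x.val + b • y.val + c • z.val}

/-- the angle at x between the great circle arcs from x to y and from x to z -/
noncomputable def angleAt (x y z : Metric.sphere (0 : V) 1) : ℝ :=
  InnerProductGeometry.angle (y.val - inner ℝ x.val y.val • x.val)
    (z.val - inner ℝ x.val z.val • x.val)

theorem result (k : ℕ) : ∃ C : ℝ,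
    ∀ (N : ℕ) (T : Fin N → Set (Metric.sphere (0 : EuclideanSpace ℝ (Fin 3)) 1)),
      IsTiling 1 T → ∀ i, Polygonal (T i) → FewParts k (T i) →
        ∃ x ∈ closure (interior (T i)), ∀ y z, LinearIndependent ℝ ![x.val, y.val, z.val] →
          Triangle x y z ⊆ T i → angleAt x y z ≤ C / N := by
  obtain ⟨C, h⟩ := Pool.Agent.Lib.MP_e5885b_co.thin k
  refine ⟨C, fun N T hT i h1 h2 => ?_⟩
  obtain ⟨x, hx, H⟩ := h N T hT.1 hT.2.1 hT.2.2.1 hT.2.2.2.1 hT.2.2.2.2 i h1 h2
  exact ⟨x, hx, fun y z a b => H y z a fun w hw => b hw⟩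

end Pool.Agent.Results.MP_e5885b_co.ThinAngle
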